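import Pool.Agent.Helper92.CP.Wc1
import Pool.Agent.Helper22.AC.D1

/-!
# The eighth moment of the largest error over all centres: one level
-/

open MeasureTheory Real Set Filter Topology

set_option autoImplicit false

namespace Pool.Agent.Helper53.CP

open Pool.Agent.Helper22.AE
open Pool.Agent.Helper22.AC
open Pool.Agent.Helper92.CP

/-- the number of blocks -/
theorem exists_n1 {η β : ℝ} (hη : 0 < η) (hβ : β ≤ 1) {x : ℝ} (hx : 1 ≤ x) : ∃ n1 : ℕ, x ^ β ≤ 2 ^ n1 ∧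
    (∀ n < n1, (2 : ℝ) ^ n < x ^ β) ∧ (n1 : ℝ) ≤ (1 + 2 / η) * x ^ η := by
  classical
  have hx0 : 0 < x := by linarith
  have hex : ∃ n : ℕ, x ^ β ≤ 2 ^ n := by
    obtain ⟨n, hn⟩ := pow_unbounded_of_one_lt (x ^ β) (by norm_num : (1 : ℝ) < 2)
    exact ⟨n, hn.le⟩
  refine ⟨Nat.find hex, Nat.find_spec hex, fun n hn => not_le.1 (Nat.find_min hex hn), ?_⟩
  have hxη : 1 ≤ x ^ η := Real.one_le_rpow hx hη.le
  rcases Nat.eq_zero_or_pos (Nat.find hex) with h | h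
  · rw [h, Nat.cast_zero]
    positivity
  · have h1 : (2 : ℝ) ^ (Nat.find hex - 1) < x ^ β := not_le.1 (Nat.find_min hex (by omega))
    have h2 : (2 : ℝ) ^ (Nat.find hex - 1) ≤ x := by
      refine h1.le.trans ?_
      calc x ^ β ≤ x ^ (1 : ℝ) := Real.rpow_le_rpow_of_exponent_le hx hβ
        _ = x := Real.rpow_one x
    have h3 : ((Nat.find hex - 1 : ℕ) : ℝ) * Real.log 2 ≤ Real.log x := by
      rw [← Real.log_pow]
      exact Real.log_le_log (by positivity) h2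
    have h4 : Real.log x ≤ x ^ η / η := Real.log_le_rpow_div hx0.le hη
    have h5 : (1 / 2 : ℝ) ≤ Real.log 2 := by
      have := Real.log_two_gt_d9
      linarith
    have h6 : ((Nat.find hex - 1 : ℕ) : ℝ) = (Nat.find hex : ℝ) - 1 := by
      rw [Nat.cast_sub h, Nat.cast_one]
    have h7 : 0 ≤ ((Nat.find hex - 1 : ℕ) : ℝ) := Nat.cast_nonneg _
    have h8 : ((Nat.find hex - 1 : ℕ) : ℝ) * (1 / 2) ≤ x ^ η / η := by
      refine le_trans ?_ (h3.trans h4)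
      exact mul_le_mul_of_nonneg_left h5 h7
    rw [h6] at h8
    have h9 : x ^ η / η * 2 = 2 / η * x ^ η := by ring
    linarith

/-- Wc2: one level -/
theorem level {H : ℝ → ℝ} (hH : IsSupp H) (h3 : ContDiff ℝ 3 H) {φ : ℝ × ℝ → ℝ} (hφ : IsBump φ) {τ η : ℝ} (h0 : 0 < τ) (hη : 0 < η)
    (h1 : τ + η < 1) (A : ℝ) : ∃ C R₁ : ℝ, 1 ≤ C ∧ 1 ≤ R₁ ∧ ∀ R₀ : ℝ, R₁ ≤ R₀ → ∃ W : ℝ → ℝ, Continuous W ∧ (∀ R, 0 ≤ W R) ∧
      (∀ R ∈ Icc R₀ (2 * R₀), ∀ c : ℝ × ℝ, C * R₀ ^ (1 - τ) < |cntc H c R - area H * R ^ 2| →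
        |cntc H c R - area H * R ^ 2| ≤ A * R₀ ^ (1 - τ + η) → |cntc H c R - area H * R ^ 2| ^ 8 ≤ W R) ∧
      ∫ R in Icc R₀ (2 * R₀), W R ≤ C * R₀ ^ (5 + 20 * η) := by
  obtain ⟨C₁, R₁, hR₁, hE⟩ := errc_le_blocks hH hφ h0 (by linarith : τ < 1) hη
  obtain ⟨C₂, hC₂, hB⟩ := blocksW hH h3 hφ hη
  set K : ℝ := 1 + 2 / η with hK
  have hK1 : 1 ≤ K := by
    have : 0 < 2 / η := by positivity
    linarith
  set D : ℝ := (2 * K) ^ 9 * (2 * C₂) * (C₂ ^ 2 + A ^ 2) with hD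
  have hD0 : 0 ≤ D := by positivity
  refine ⟨1 + 2 * |C₁| + D, max 1 R₁, by linarith [abs_nonneg C₁], le_max_left _ _, fun R₀ hR₀ => ?_⟩
  have hx : 1 ≤ R₀ := (le_max_left _ _).trans hR₀
  have hx1 : R₁ ≤ R₀ := (le_max_right _ _).trans hR₀
  have hx0 : 0 < R₀ := by linarith
  obtain ⟨n1, hn1, hn1', hn1''⟩ := exists_n1 hη h1.le hx
  have hδ : R₀ ^ (-τ) ∈ Icc (0 : ℝ) 1 := ⟨by positivity, Real.rpow_le_one_of_one_le_of_nonpos hx (by linarith)⟩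
  have h2n : ∀ n < n1, (2 : ℝ) ^ n ≤ R₀ := fun n hn => by
    refine (hn1' n hn).le.trans ?_
    calc R₀ ^ (τ + η) ≤ R₀ ^ (1 : ℝ) := Real.rpow_le_rpow_of_exponent_le hx h1.le
      _ = R₀ := Real.rpow_one _
  -- the majorants
  have hS : ∀ (n : ℕ) (σ : ℝ), ∃ S : ℝ → ℝ, Continuous S ∧ (∀ R, 0 ≤ S R) ∧ (n < n1 → (σ = 1 ∨ σ = -1) →
      (∀ R ∈ Icc R₀ (2 * R₀), IsSupp (fun θ => R * H θ + σ * R₀ ^ (-τ)) → ∀ c : ℝ × ℝ,
          ‖VKc φ (fun θ => R * H θ + σ * R₀ ^ (-τ)) (R₀ ^ (-τ)) n c‖ ^ 6 ≤ S R ∧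
          ‖VKc φ (fun θ => R * H θ + σ * R₀ ^ (-τ)) (R₀ ^ (-τ)) n c‖ ≤ C₂ * R₀ ^ (1 / 2 : ℝ) * (2 : ℝ) ^ ((n : ℝ) / 2)) ∧
        ∫ R in Icc R₀ (2 * R₀), S R ≤ C₂ * R₀ ^ 4 * ((2 : ℝ) ^ n) ^ (-1 + η) * (1 + 8 ^ n / R₀)) := by
    intro n σ
    by_cases h : n < n1 ∧ (σ = 1 ∨ σ = -1)
    · obtain ⟨S, hS1, hS2, hS3, hS4⟩ := hB R₀ hx n (h2n n h.1) (R₀ ^ (-τ)) hδ σ h.2
      exact ⟨S, hS1, hS2, fun _ _ => ⟨hS3, hS4⟩⟩
    · exact ⟨fun _ => 0, continuous_const, fun _ => le_rfl, fun h2 h3 => absurd ⟨h2, h3⟩ h⟩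
  choose S hS1 hS2 hS3 using hS
  set N : ℝ := (n1 : ℝ) with hN
  have hN0 : 0 ≤ N := Nat.cast_nonneg _
  let M : ℕ → ℝ := fun n => min ((A * R₀ ^ (1 - τ + η)) ^ 2) ((2 * N) ^ 2 * (C₂ * R₀ ^ (1 / 2 : ℝ) * (2 : ℝ) ^ ((n : ℝ) / 2)) ^ 2)
  have hM0 : ∀ n, 0 ≤ M n := fun n => le_min (by positivity) (by positivity)
  let W : ℝ → ℝ := fun R => ∑ n ∈ Finset.range n1, (2 * N) ^ 6 * M n * (S n 1 R + S n (-1) R)
  refine ⟨W, ?_, ?_, ?_, ?_⟩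
  · exact continuous_finsetSum _ fun n _ => continuous_const.mul ((hS1 n 1).add (hS1 n (-1)))
  · intro R
    exact Finset.sum_nonneg fun n _ => mul_nonneg (mul_nonneg (by positivity) (hM0 n)) (add_nonneg (hS2 n 1 R) (hS2 n (-1) R))
  · intro R hR c hlow hup
    set v := |cntc H c R - area H * R ^ 2| with hv
    have hv0 : 0 ≤ v := abs_nonneg _
    obtain ⟨σ, hσ, hsupp, hE1⟩ := hE R₀ hx1 R hR c n1 hn1
    rw [← hv] at hE1
    set s : ℕ → ℝ := fun n => ‖VKc φ (fun θ => R * H θ + σ * R₀ ^ (-τ)) (R₀ ^ (-τ)) n c‖ with hs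
    have hxt : 0 < R₀ ^ (1 - τ) := by positivity
    have hsum : v ≤ 2 * ∑ n ∈ Finset.range n1, s n := by
      have h4 : 2 * (C₁ * R₀ ^ (1 - τ)) ≤ (1 + 2 * |C₁| + D) * R₀ ^ (1 - τ) := by
        have := le_abs_self C₁
        nlinarith
      linarith
    have hvpos : 0 < v := lt_of_le_of_lt (by positivity) hlow
    obtain ⟨n, hn, hvn⟩ : ∃ n ∈ Finset.range n1, v ≤ 2 * N * s n := by
      by_contra hcon
      push Not at hcon
      have hne : (Finset.range n1).Nonempty := by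
        rw [Finset.nonempty_iff_ne_empty]
        intro he
        rw [he, Finset.sum_empty] at hsum
        linarith
      have h5 := Finset.sum_lt_sum_of_nonempty hne hcon
      rw [← Finset.mul_sum, Finset.sum_const, Finset.card_range, nsmul_eq_mul] at h5
      have h6 : N * v ≤ N * (2 * ∑ n ∈ Finset.range n1, s n) := mul_le_mul_of_nonneg_left hsum hN0
      nlinarith
    have hn' := Finset.mem_range.1 hn
    obtain ⟨h5, h6⟩ := (hS3 n σ hn' hσ).1 R hR hsupp c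
    have hs0 : 0 ≤ s n := norm_nonneg _
    have h7 : v ^ 2 ≤ M n := by
      refine le_min (pow_le_pow_left₀ hv0 hup 2) ?_
      calc v ^ 2 ≤ (2 * N * s n) ^ 2 := pow_le_pow_left₀ hv0 hvn 2
        _ = (2 * N) ^ 2 * s n ^ 2 := by ring
        _ ≤ (2 * N) ^ 2 * (C₂ * R₀ ^ (1 / 2 : ℝ) * (2 : ℝ) ^ ((n : ℝ) / 2)) ^ 2 := by gcongr
    have h8 : v ^ 6 ≤ (2 * N) ^ 6 * S n σ R := by
      calc v ^ 6 ≤ (2 * N * s n) ^ 6 := pow_le_pow_left₀ hv0 hvn 6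
        _ = (2 * N) ^ 6 * s n ^ 6 := by ring
        _ ≤ (2 * N) ^ 6 * S n σ R := by gcongr
    have h9 : S n σ R ≤ S n 1 R + S n (-1) R := by
      rcases hσ with h | h
      · rw [h]
        linarith [hS2 n (-1) R]
      · rw [h]
        linarith [hS2 n 1 R]
    calc v ^ 8 = v ^ 2 * v ^ 6 := by ring
      _ ≤ M n * ((2 * N) ^ 6 * S n σ R) := mul_le_mul h7 h8 (by positivity) (hM0 n)
      _ ≤ M n * ((2 * N) ^ 6 * (S n 1 R + S n (-1) R)) := by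
          have := hM0 n
          gcongr
      _ = (2 * N) ^ 6 * M n * (S n 1 R + S n (-1) R) := by ring
      _ ≤ W R := Finset.single_le_sum (f := fun n => (2 * N) ^ 6 * M n * (S n 1 R + S n (-1) R)) (fun m _ =>
          mul_nonneg (mul_nonneg (by positivity) (hM0 m)) (add_nonneg (hS2 m 1 R) (hS2 m (-1) R))) hn
  · -- the integral
    have hint : ∀ n (σ : ℝ), IntegrableOn (S n σ) (Icc R₀ (2 * R₀)) := fun n σ => (hS1 n σ).continuousOn.integrableOn_Icc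
    have h4 : ∫ R in Icc R₀ (2 * R₀), W R = ∑ n ∈ Finset.range n1, (2 * N) ^ 6 * M n *
        ((∫ R in Icc R₀ (2 * R₀), S n 1 R) + ∫ R in Icc R₀ (2 * R₀), S n (-1) R) := by
      show ∫ R in Icc R₀ (2 * R₀), (∑ n ∈ Finset.range n1, (2 * N) ^ 6 * M n * (S n 1 R + S n (-1) R)) = _
      rw [integral_finsetSum]
      · refine Finset.sum_congr rfl fun n _ => ?_
        rw [integral_const_mul, integral_add (hint n 1) (hint n (-1))]
      · intro n _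
        exact ((hint n 1).add (hint n (-1))).const_mul _
    rw [h4]
    have hxη : 1 ≤ R₀ ^ η := Real.one_le_rpow hx hη.le
    have h5 : ∀ n ∈ Finset.range n1, (2 * N) ^ 6 * M n *
        ((∫ R in Icc R₀ (2 * R₀), S n 1 R) + ∫ R in Icc R₀ (2 * R₀), S n (-1) R) ≤
        (2 * N) ^ 6 * ((2 * C₂) * (((2 * N) ^ 2 * C₂ ^ 2 + A ^ 2) * R₀ ^ (5 + 5 * η))) := by
      intro n hn
      have hn' := Finset.mem_range.1 hn
      have i1 := (hS3 n 1 hn' (Or.inl rfl)).2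
      have i2 := (hS3 n (-1) hn' (Or.inr rfl)).2
      have i3 : (∫ R in Icc R₀ (2 * R₀), S n 1 R) + ∫ R in Icc R₀ (2 * R₀), S n (-1) R ≤
          (2 * C₂) * (R₀ ^ 4 * ((2 : ℝ) ^ n) ^ (-1 + η) * (1 + 8 ^ n / R₀)) := by
        calc _ ≤ C₂ * R₀ ^ 4 * ((2 : ℝ) ^ n) ^ (-1 + η) * (1 + 8 ^ n / R₀) +
            C₂ * R₀ ^ 4 * ((2 : ℝ) ^ n) ^ (-1 + η) * (1 + 8 ^ n / R₀) := add_le_add i1 i2
          _ = _ := by ring
      have hy : (2 : ℝ) ^ n ≤ R₀ := h2n n hn'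
      have hy0 : (0 : ℝ) < 2 ^ n := by positivity
      have hyη : ((2 : ℝ) ^ n) ^ η ≤ R₀ ^ η := Real.rpow_le_rpow hy0.le hy hη.le
      have e1 : ((2 : ℝ) ^ n) ^ (-1 + η) = ((2 : ℝ) ^ n)⁻¹ * ((2 : ℝ) ^ n) ^ η := by
        rw [Real.rpow_add hy0, Real.rpow_neg_one]
      have e2 : ((2 : ℝ) ^ ((n : ℝ) / 2)) ^ 2 = (2 : ℝ) ^ n := by
        rw [← Real.rpow_natCast, ← Real.rpow_mul (by norm_num), ← Real.rpow_natCast]
        congr 1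
        push_cast
        ring
      have e3 : (R₀ ^ (1 / 2 : ℝ)) ^ 2 = R₀ := by
        rw [← Real.rpow_natCast, ← Real.rpow_mul hx0.le]
        norm_num
      -- the two parts
      have p1 : M n * (R₀ ^ 4 * ((2 : ℝ) ^ n) ^ (-1 + η)) ≤ (2 * N) ^ 2 * C₂ ^ 2 * R₀ ^ (5 + 5 * η) := by
        calc M n * (R₀ ^ 4 * ((2 : ℝ) ^ n) ^ (-1 + η))
            ≤ ((2 * N) ^ 2 * (C₂ * R₀ ^ (1 / 2 : ℝ) * (2 : ℝ) ^ ((n : ℝ) / 2)) ^ 2) * (R₀ ^ 4 * ((2 : ℝ) ^ n) ^ (-1 + η)) :=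
              mul_le_mul_of_nonneg_right (min_le_right _ _) (by positivity)
          _ = (2 * N) ^ 2 * C₂ ^ 2 * (R₀ * R₀ ^ 4 * ((2 : ℝ) ^ n) ^ η) := by
              have e6 : (C₂ * R₀ ^ (1 / 2 : ℝ) * (2 : ℝ) ^ ((n : ℝ) / 2)) ^ 2 = C₂ ^ 2 * R₀ * 2 ^ n := by
                rw [mul_pow, mul_pow, e2, e3]
              rw [e6, e1]
              field_simp
          _ ≤ (2 * N) ^ 2 * C₂ ^ 2 * (R₀ * R₀ ^ 4 * R₀ ^ η) := by gcongr
          _ = (2 * N) ^ 2 * C₂ ^ 2 * R₀ ^ (5 + η) := by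
              rw [Real.rpow_add hx0, show (5 : ℝ) = ((5 : ℕ) : ℝ) by norm_num, Real.rpow_natCast]
              ring
          _ ≤ (2 * N) ^ 2 * C₂ ^ 2 * R₀ ^ (5 + 5 * η) := by
              refine mul_le_mul_of_nonneg_left (Real.rpow_le_rpow_of_exponent_le hx (by linarith)) (by positivity)
      have p2 : M n * (R₀ ^ 4 * ((2 : ℝ) ^ n) ^ (-1 + η) * (8 ^ n / R₀)) ≤ A ^ 2 * R₀ ^ (5 + 5 * η) := by
        have e4 : (8 : ℝ) ^ n = (2 : ℝ) ^ n * ((2 : ℝ) ^ n) ^ 2 := by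
          rw [show (8 : ℝ) = 2 ^ 3 by norm_num, ← pow_mul, ← pow_mul, ← pow_add]
          congr 1
          ring
        have e5 : ((2 : ℝ) ^ n) ^ 2 ≤ (R₀ ^ (τ + η)) ^ 2 := pow_le_pow_left₀ hy0.le (hn1' n hn').le 2
        calc M n * (R₀ ^ 4 * ((2 : ℝ) ^ n) ^ (-1 + η) * (8 ^ n / R₀))
            ≤ (A * R₀ ^ (1 - τ + η)) ^ 2 * (R₀ ^ 4 * ((2 : ℝ) ^ n) ^ (-1 + η) * (8 ^ n / R₀)) :=
              mul_le_mul_of_nonneg_right (min_le_left _ _) (by positivity)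
          _ = A ^ 2 * ((R₀ ^ (1 - τ + η)) ^ 2 * (R₀ ^ 3 * (((2 : ℝ) ^ n) ^ 2 * ((2 : ℝ) ^ n) ^ η))) := by
              rw [e1, e4]
              field_simp
          _ ≤ A ^ 2 * ((R₀ ^ (1 - τ + η)) ^ 2 * (R₀ ^ 3 * ((R₀ ^ (τ + η)) ^ 2 * R₀ ^ η))) := by gcongr
          _ = A ^ 2 * R₀ ^ (5 + 5 * η) := by
              rw [← Real.rpow_natCast (R₀ ^ (1 - τ + η)) 2, ← Real.rpow_natCast (R₀ ^ (τ + η)) 2, ← Real.rpow_mul hx0.le,
                ← Real.rpow_mul hx0.le, ← Real.rpow_natCast R₀ 3, ← Real.rpow_add hx0, ← Real.rpow_add hx0,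
                ← Real.rpow_add hx0]
              congr 2
              push_cast
              ring
      calc (2 * N) ^ 6 * M n * ((∫ R in Icc R₀ (2 * R₀), S n 1 R) + ∫ R in Icc R₀ (2 * R₀), S n (-1) R)
          ≤ (2 * N) ^ 6 * M n * ((2 * C₂) * (R₀ ^ 4 * ((2 : ℝ) ^ n) ^ (-1 + η) * (1 + 8 ^ n / R₀))) := by
            have := hM0 n
            gcongr
        _ = (2 * N) ^ 6 * ((2 * C₂) * (M n * (R₀ ^ 4 * ((2 : ℝ) ^ n) ^ (-1 + η)) +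
            M n * (R₀ ^ 4 * ((2 : ℝ) ^ n) ^ (-1 + η) * (8 ^ n / R₀)))) := by ring
        _ ≤ (2 * N) ^ 6 * ((2 * C₂) * ((2 * N) ^ 2 * C₂ ^ 2 * R₀ ^ (5 + 5 * η) + A ^ 2 * R₀ ^ (5 + 5 * η))) := by
            gcongr
        _ = _ := by ring
    refine (Finset.sum_le_sum h5).trans ?_
    rw [Finset.sum_const, Finset.card_range, nsmul_eq_mul, ← hN]
    have hx5 : 0 < R₀ ^ (5 + 5 * η) := by positivity
    have hKx : 1 ≤ K * R₀ ^ η := by nlinarith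
    have hNK : N ≤ K * R₀ ^ η := hn1''
    calc N * ((2 * N) ^ 6 * ((2 * C₂) * (((2 * N) ^ 2 * C₂ ^ 2 + A ^ 2) * R₀ ^ (5 + 5 * η))))
        ≤ (2 * (K * R₀ ^ η)) * ((2 * (K * R₀ ^ η)) ^ 6 * ((2 * C₂) * (((2 * (K * R₀ ^ η)) ^ 2 * (C₂ ^ 2 + A ^ 2)) *
            R₀ ^ (5 + 5 * η)))) := by
          have h6 : (2 * N) ^ 2 * C₂ ^ 2 + A ^ 2 ≤ (2 * (K * R₀ ^ η)) ^ 2 * (C₂ ^ 2 + A ^ 2) := by
            have h7 : (2 * N) ^ 2 ≤ (2 * (K * R₀ ^ η)) ^ 2 := by gcongr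
            have h8 : 1 ≤ (2 * (K * R₀ ^ η)) ^ 2 := by
              have : 1 ≤ 2 * (K * R₀ ^ η) := by linarith
              exact one_le_pow₀ this
            have h9 := mul_le_mul_of_nonneg_right h7 (sq_nonneg C₂)
            have h10 := mul_le_mul_of_nonneg_right h8 (sq_nonneg A)
            nlinarith
          have h7 : N ≤ 2 * (K * R₀ ^ η) := by linarith
          have h8 : (2 * N) ^ 6 ≤ (2 * (K * R₀ ^ η)) ^ 6 := by gcongr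
          gcongr
      _ = D * ((R₀ ^ η) ^ 9 * R₀ ^ (5 + 5 * η)) := by
          rw [hD]
          ring
      _ = D * R₀ ^ (5 + 14 * η) := by
          rw [← Real.rpow_natCast (R₀ ^ η) 9, ← Real.rpow_mul hx0.le, ← Real.rpow_add hx0]
          congr 2
          push_cast
          ring
      _ ≤ (1 + 2 * |C₁| + D) * R₀ ^ (5 + 20 * η) := by
          have h6 : R₀ ^ (5 + 14 * η) ≤ R₀ ^ (5 + 20 * η) := Real.rpow_le_rpow_of_exponent_le hx (by linarith)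
          have h7 : D ≤ 1 + 2 * |C₁| + D := by linarith [abs_nonneg C₁]
          exact mul_le_mul h7 h6 (by positivity) (by positivity)

end Pool.Agent.Helper53.CP
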